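import Mathlib
import Pool.Agent.H96.NS3

open Set
open scoped Manifold ContDiff

namespace Pool.Agent.Results.MP_33f427_an.Yes

/-- every forward orbit {T^n x : n ≥ 1} is dense -/
def Minimal {X : Type} [TopologicalSpace X] (T : X → X) : Prop :=
  ∀ x, Dense (range fun n : ℕ => T^[n + 1] x)

/-- some point has a dense orbit along `A` -/
def DenseAlong {X : Type} [TopologicalSpace X] (T : X → X) (A : Set ℕ) : Prop :=
  ∃ x, Dense ((fun n : ℕ => T^[n] x) '' A)

/-- `R_e`-sequence: every minimal equicontinuous system has a point with dense orbit along `A` -/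
def IsRe (A : Set ℕ) : Prop :=
  ∀ (X : Type) [MetricSpace X] [CompactSpace X] [Nonempty X] (T : X → X), Continuous T →
    Function.Surjective T → Minimal T → Equicontinuous (fun n : ℕ => T^[n]) → DenseAlong T A

theorem result (A : Set ℕ) (hA : IsRe A)
    (E : Type) [NormedAddCommGroup E] [NormedSpace ℝ E] [FiniteDimensional ℝ E]
    (G : Type) [Group G] [TopologicalSpace G] [T2Space G] [SecondCountableTopology G]
    [ChartedSpace E G] [LieGroup 𝓘(ℝ, E) ∞ G] [Group.IsNilpotent G]
    (Γ : Subgroup G) [DiscreteTopology Γ] [CompactSpace (G ⧸ Γ)] (a : G)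
    (hmin : Minimal fun y : G ⧸ Γ => a • y) :
    DenseAlong (fun y : G ⧸ Γ => a • y) A := by
  have : IsTopologicalGroup G := topologicalGroup_of_lieGroup 𝓘(ℝ, E) ∞
  have : ProperSpace E := FiniteDimensional.proper_real E
  have : LocallyCompactSpace G := ChartedSpace.locallyCompactSpace E G
  have : LocallyPathConnectedSpace G := ChartedSpace.locallyPathConnectedSpace E G
  exact Pool.Agent.H96.NS.main hA Γ a hmin

end Pool.Agent.Results.MP_33f427_an.Yes
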